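import Pool.Agent.W374.PG.Cnv

/-!
# Pull-back of products of algebraic classes and diagonals
-/

set_option autoImplicit false

open Matrix Finset Module

namespace Pool.Agent.W547.AHX

open Pool.Agent.W544.PG

noncomputable section

section fact

variable {S R : Type} [Fintype S] [CommRing R] {m : ℕ}

theorem prod_inv (σ : Fin m → Fin m) (hσ : ∀ j, σ (σ j) = j) (h : Fin m → R) :
    ∏ j, h j = (∏ j with σ j = j, h j) * ∏ j with j < σ j, (h j * h (σ j)) := by
  classical
  rw [Finset.prod_mul_distrib]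
  have h1 : ∏ j with j < σ j, h (σ j) = ∏ j with σ j < j, h j := by
    refine Finset.prod_bij' (fun j _ => σ j) (fun j _ => σ j) ?_ ?_ ?_ ?_ ?_
    · intro j hj
      simp only [Finset.mem_filter, Finset.mem_univ, true_and] at hj ⊢
      rw [hσ]
      exact hj
    · intro j hj
      simp only [Finset.mem_filter, Finset.mem_univ, true_and] at hj ⊢
      rw [hσ]
      exact hj
    · intro j _
      exact hσ j
    · intro j _
      exact hσ j
    · intro j _
      rfl
  rw [h1, ← Finset.prod_filter_mul_prod_filter_not univ (fun j => σ j = j) h]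
  congr 1
  rw [← Finset.prod_filter_mul_prod_filter_not (univ.filter fun j => ¬ σ j = j)
    (fun j => j < σ j) h, Finset.filter_filter, Finset.filter_filter]
  congr 1
  · refine Finset.prod_congr (Finset.filter_congr fun j _ => ?_) fun _ _ => rfl
    constructor
    · exact fun h => h.2
    · exact fun h => ⟨h.ne', h⟩
  · refine Finset.prod_congr (Finset.filter_congr fun j _ => ?_) fun _ _ => rfl
    constructor
    · rintro ⟨h2, h3⟩
      exact lt_of_le_of_ne (not_lt.1 h3) h2
    · exact fun h => ⟨h.ne, not_lt.2 h.le⟩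

/-- a multi-index as a family of indices and pairs of indices -/
def eqv (σ : Fin m → Fin m) (hσ : ∀ j, σ (σ j) = j) :
    (Fin m → S) ≃ ({j // σ j = j} → S) × ({j // j < σ j} → S × S) where
  toFun K := (fun j => K j.1, fun j => (K j.1, K (σ j.1)))
  invFun p := fun j => if h : σ j = j then p.1 ⟨j, h⟩ else if h2 : j < σ j then (p.2 ⟨j, h2⟩).1
    else (p.2 ⟨σ j, by
      rw [hσ]
      exact lt_of_le_of_ne (not_lt.1 h2) h⟩).2
  left_inv K := by
    funext j
    simp only
    split_ifs with h h2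
    · rfl
    · rfl
    · rw [hσ]
  right_inv p := by
    obtain ⟨A, B⟩ := p
    refine Prod.ext ?_ ?_
    · funext j
      obtain ⟨j, hj⟩ := j
      simp only
      rw [dif_pos hj]
    · funext j
      obtain ⟨j, hj⟩ := j
      simp only
      rw [dif_neg hj.ne', dif_pos hj, dif_neg (by rw [hσ]; exact hj.ne),
        dif_neg (by rw [hσ]; exact not_lt.2 hj.le)]
      have h2 : ∀ (j' : Fin m) (h1 : j' = j) (h3 : j' < σ j'), (B ⟨j', h3⟩).2 = (B ⟨j, hj⟩).2 := by
        intro j' h1 h3
        subst h1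
        rfl
      rw [h2 (σ (σ j)) (hσ j)]

theorem fact (σ : Fin m → Fin m) (hσ : ∀ j, σ (σ j) = j) (u f : Fin m → S → R)
    (g : Fin m → S → S → R) :
    ∑ K : Fin m → S, (∏ j, u j (K j)) * ((∏ j with σ j = j, f j (K j)) *
      ∏ j with j < σ j, g j (K j) (K (σ j))) =
    (∏ j with σ j = j, ∑ k, u j k * f j k) *
      ∏ j with j < σ j, ∑ k, ∑ k', u j k * u (σ j) k' * g j k k' := by
  classical
  have h1 : ∀ (p : Fin m → Prop) [DecidablePred p] (F : Fin m → R),
      ∏ j with p j, F j = ∏ j : {j // p j}, F j.1 := by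
    intro p _ F
    exact Finset.prod_subtype _ (fun x => by simp) F
  have h2 : ∀ K : Fin m → S, (∏ j, u j (K j)) * ((∏ j with σ j = j, f j (K j)) *
      ∏ j with j < σ j, g j (K j) (K (σ j))) =
      (∏ j : {j // σ j = j}, u j.1 (K j.1) * f j.1 (K j.1)) *
      ∏ j : {j // j < σ j}, u j.1 (K j.1) * u (σ j.1) (K (σ j.1)) * g j.1 (K j.1) (K (σ j.1)) := by
    intro K
    rw [prod_inv σ hσ, ← h1 (fun j => σ j = j) (fun j => u j (K j) * f j (K j)),
      ← h1 (fun j => j < σ j) (fun j => u j (K j) * u (σ j) (K (σ j)) * g j (K j) (K (σ j)))]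
    simp only [Finset.prod_mul_distrib]
    ring
  rw [Finset.sum_congr rfl fun K _ => h2 K, h1 (fun j => σ j = j) (fun j => ∑ k, u j k * f j k),
    h1 (fun j => j < σ j) (fun j => ∑ k, ∑ k', u j k * u (σ j) k' * g j k k')]
  have h3 : ∀ j : {j // j < σ j}, ∑ k, ∑ k', u j.1 k * u (σ j.1) k' * g j.1 k k' =
      ∑ p : S × S, u j.1 p.1 * u (σ j.1) p.2 * g j.1 p.1 p.2 := fun j => by
    rw [Fintype.sum_prod_type]
  rw [Finset.prod_congr rfl fun j _ => h3 j, Finset.prod_univ_sum, Finset.prod_univ_sum,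
    Fintype.piFinset_univ, Fintype.piFinset_univ, Finset.sum_mul_sum, ← Fintype.sum_prod_type']
  exact Fintype.sum_equiv (eqv σ hσ) _ _ fun K => rfl

end fact

/-- The comparison matrices preserve the intersection form of one surface. -/
theorem pull_pair {n r s : ℕ} (T T' : HS n) (c : Fin n → Fin r) (d : Fin s → Fin r)
    (i : Fin r) {R : Type} [Field R] [CharZero R] (P : Matrix (Fin n) (Fin n) R) (hP : BD c P)
    (hPQ : Pᵀ * T'.Q.map (fun z : ℚ => (z : R)) * P = T.Q.map (fun z : ℚ => (z : R)))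
    (x y : Fin s ⊕ Fin n) :
    ∑ k, ∑ k', fromBlocks (1 : Matrix (Fin s) (Fin s) R) 0 0 P k x *
      fromBlocks (1 : Matrix (Fin s) (Fin s) R) 0 0 P k' y *
      ((if Sum.elim d c k = i then Matrix.fromBlocks 0 0 0 T'.Q k k' else 0 : ℚ) : R) =
    ((if Sum.elim d c x = i then Matrix.fromBlocks 0 0 0 T.Q x y else 0 : ℚ) : R) := by
  have h1 : ∀ k, fromBlocks (1 : Matrix (Fin s) (Fin s) R) 0 0 P k x ≠ 0 →
      Sum.elim d c k = Sum.elim d c x := by
    intro k hk
    rcases k with k | k <;> rcases x with x | x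
    · rw [Matrix.fromBlocks_apply₁₁, Matrix.one_apply] at hk
      have : k = x := by
        by_contra h
        rw [if_neg h] at hk
        exact hk rfl
      rw [this]
    · exact absurd rfl hk
    · exact absurd rfl hk
    · rw [Matrix.fromBlocks_apply₂₂] at hk
      by_contra h
      exact hk (hP k x h)
  by_cases hx : Sum.elim d c x = i
  · rw [if_pos hx]
    have h2 : ∀ k k', fromBlocks (1 : Matrix (Fin s) (Fin s) R) 0 0 P k x *
        fromBlocks (1 : Matrix (Fin s) (Fin s) R) 0 0 P k' y *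
        ((if Sum.elim d c k = i then
          Matrix.fromBlocks (0 : Matrix (Fin s) (Fin s) ℚ) 0 0 T'.Q k k' else 0 : ℚ) : R) =
        (fromBlocks (1 : Matrix (Fin s) (Fin s) R) 0 0 P)ᵀ x k *
        ((Matrix.fromBlocks (0 : Matrix (Fin s) (Fin s) ℚ) 0 0 T'.Q).map
          (fun z : ℚ => (z : R))) k k' *
        fromBlocks (1 : Matrix (Fin s) (Fin s) R) 0 0 P k' y := by
      intro k k'
      rw [Matrix.transpose_apply, Matrix.map_apply]
      by_cases hk : fromBlocks (1 : Matrix (Fin s) (Fin s) R) 0 0 P k x = 0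
      · rw [hk]
        ring
      · rw [if_pos ((h1 k hk).trans hx)]
        ring
    rw [Finset.sum_congr rfl fun k _ => Finset.sum_congr rfl fun k' _ => h2 k k']
    have h3 : ((fromBlocks (1 : Matrix (Fin s) (Fin s) R) 0 0 P)ᵀ *
        ((Matrix.fromBlocks (0 : Matrix (Fin s) (Fin s) ℚ) 0 0 T'.Q).map (fun z : ℚ => (z : R))) *
        fromBlocks (1 : Matrix (Fin s) (Fin s) R) 0 0 P) =
        (Matrix.fromBlocks (0 : Matrix (Fin s) (Fin s) ℚ) 0 0 T.Q).map (fun z : ℚ => (z : R)) := by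
      rw [Matrix.fromBlocks_map, Matrix.fromBlocks_map, Matrix.fromBlocks_transpose,
        Matrix.fromBlocks_multiply, Matrix.fromBlocks_multiply, ← hPQ]
      congr 1 <;> simp
    have h4 := congrFun (congrFun h3 x) y
    rw [Matrix.map_apply] at h4
    rw [← h4, Matrix.mul_apply, Finset.sum_comm]
    refine Finset.sum_congr rfl fun k' _ => ?_
    rw [Matrix.mul_apply, Finset.sum_mul]
  · rw [if_neg hx, Rat.cast_zero]
    refine Finset.sum_eq_zero fun k _ => Finset.sum_eq_zero fun k' _ => ?_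
    by_cases hk : fromBlocks (1 : Matrix (Fin s) (Fin s) R) 0 0 P k x = 0
    · rw [hk]
      ring
    · rw [if_neg (fun h => hx ((h1 k hk).symm.trans h)), Rat.cast_zero, mul_zero]

/-- The comparison matrices preserve the products of algebraic classes and diagonals. -/
theorem pull_gen {n r s m : ℕ} (T T' : HS n) (c : Fin n → Fin r) (d : Fin s → Fin r)
    (a : Fin m → Fin r) (σ : Fin m → Fin m) (hσ : ∀ j, σ (σ j) = j)
    (ν : Fin m → Fin s → ℚ) {R : Type} [Field R] [CharZero R] (P : Matrix (Fin n) (Fin n) R)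
    (hP : BD c P)
    (hPQ : Pᵀ * T'.Q.map (fun z : ℚ => (z : R)) * P = T.Q.map (fun z : ℚ => (z : R))) :
    pull (fromBlocks 1 0 0 P) (fun J : Fin m → Fin s ⊕ Fin n =>
      (((∏ j with σ j = j, Sum.elim (ν j) (fun _ => 0) (J j)) *
        ∏ j with j < σ j, if Sum.elim d c (J j) = a j then
          Matrix.fromBlocks 0 0 0 T'.Q (J j) (J (σ j)) else 0 : ℚ) : R)) =
    fun J => (((∏ j with σ j = j, Sum.elim (ν j) (fun _ => 0) (J j)) *
        ∏ j with j < σ j, if Sum.elim d c (J j) = a j then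
          Matrix.fromBlocks 0 0 0 T.Q (J j) (J (σ j)) else 0 : ℚ) : R) := by
  funext J
  unfold pull
  have h1 : ∀ K : Fin m → Fin s ⊕ Fin n,
      (((∏ j with σ j = j, Sum.elim (ν j) (fun _ => 0) (K j)) *
        ∏ j with j < σ j, if Sum.elim d c (K j) = a j then
          Matrix.fromBlocks 0 0 0 T'.Q (K j) (K (σ j)) else 0 : ℚ) : R) =
      (∏ j with σ j = j, (fun j (x : Fin s ⊕ Fin n) =>
        ((Sum.elim (ν j) (fun _ => 0) x : ℚ) : R)) j (K j)) *
      ∏ j with j < σ j, (fun j (x y : Fin s ⊕ Fin n) =>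
        ((if Sum.elim d c x = a j then Matrix.fromBlocks 0 0 0 T'.Q x y else 0 : ℚ) : R))
          j (K j) (K (σ j)) := by
    intro K
    rw [Rat.cast_mul, Rat.cast_prod, Rat.cast_prod]
  have key := fact σ hσ (fun j x => fromBlocks (1 : Matrix (Fin s) (Fin s) R) 0 0 P x (J j))
    (fun j (x : Fin s ⊕ Fin n) => ((Sum.elim (ν j) (fun _ => 0) x : ℚ) : R))
    (fun j (x y : Fin s ⊕ Fin n) =>
      ((if Sum.elim d c x = a j then Matrix.fromBlocks 0 0 0 T'.Q x y else 0 : ℚ) : R))
  refine Eq.trans (Finset.sum_congr rfl fun K _ => ?_) (key.trans ?_)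
  · exact congrArg (fun z => (∏ j, fromBlocks (1 : Matrix (Fin s) (Fin s) R) 0 0 P (K j) (J j)) * z)
      (h1 K)
  rw [Rat.cast_mul, Rat.cast_prod, Rat.cast_prod]
  congr 1
  · refine Finset.prod_congr rfl fun j _ => ?_
    rw [Fintype.sum_sum_type]
    rcases J j with x | x
    · simp [Matrix.one_apply]
    · simp
  · refine Finset.prod_congr rfl fun j _ => ?_
    exact pull_pair T T' c d (a j) P hP hPQ (J j) (J (σ j))

/-- A class which is a sum of products of algebraic classes and diagonals has a conjugate. -/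
theorem algP_conj {n r s m : ℕ} (T T' : HS n) (c : Fin n → Fin r) (d : Fin s → Fin r)
    (a : Fin m → Fin r) (t : (Fin m → Fin s ⊕ Fin n) → ℚ) (ht : t ∈ T.algP c d a) :
    ∃ t' ∈ T'.algP c d a, ∀ (R : Type) [Field R] [CharZero R] (P : Matrix (Fin n) (Fin n) R),
      BD c P → Pᵀ * T'.Q.map (fun z : ℚ => (z : R)) * P = T.Q.map (fun z : ℚ => (z : R)) →
      pull (fromBlocks 1 0 0 P) (fun J => (t' J : R)) = fun J => (t J : R) := by
  induction ht using Submodule.span_induction with
  | mem t h =>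
    obtain ⟨σ, ν, h1, h2, h3, h4⟩ := h
    refine ⟨_, Submodule.subset_span ⟨σ, ν, h1, h2, h3, fun J => rfl⟩, ?_⟩
    intro R _ _ P hP hPQ
    rw [pull_gen T T' c d a σ h1 ν P hP hPQ]
    funext J
    rw [h4 J]
  | zero =>
    refine ⟨0, Submodule.zero_mem _, ?_⟩
    intro R _ _ P _ _
    funext J
    simp [pull]
  | add t1 t2 _ _ h1 h2 =>
    obtain ⟨t1', a1, a2⟩ := h1
    obtain ⟨t2', b1, b2⟩ := h2
    refine ⟨t1' + t2', Submodule.add_mem _ a1 b1, ?_⟩
    intro R _ _ P hP hPQ
    funext J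
    have h3 := congrFun (a2 R P hP hPQ) J
    have h4 := congrFun (b2 R P hP hPQ) J
    simp only [pull, Pi.add_apply, Rat.cast_add, mul_add, Finset.sum_add_distrib] at h3 h4 ⊢
    rw [h3, h4]
  | smul z t1 _ h1 =>
    obtain ⟨t1', a1, a2⟩ := h1
    refine ⟨z • t1', Submodule.smul_mem _ _ a1, ?_⟩
    intro R _ _ P hP hPQ
    funext J
    have h3 := congrFun (a2 R P hP hPQ) J
    simp only [pull, Pi.smul_apply, smul_eq_mul, Rat.cast_mul] at h3 ⊢
    rw [← h3, Finset.mul_sum]
    refine Finset.sum_congr rfl fun K _ => ?_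
    ring

end

end Pool.Agent.W547.AHX
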