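import Pool.Agent.W547.AHX.Main
import Pool.Agent.W547.AHX.Fact

/-!
# Absolute Hodge classes on products of surfaces and an abelian variety
-/

set_option autoImplicit false

open Matrix Finset Module

namespace Pool.Agent.W547.AHX

open Pool.Agent.W544.PG

noncomputable section

/-- The comparison of surfaces `S_i` and of an abelian variety `A` over the complex numbers with
their conjugates under an automorphism `σ` of the complex numbers: `T = ⊕ T_i`, `T'` are the
transcendental parts of the cohomology of the surfaces `S_i` and of their conjugates (`c` says to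
which surface a basis vector belongs), `W`, `W'` the cohomology groups `H^1` of `A` and of its
conjugate. `D`, `F`, `z` are the matrices (the number) of the `σ`-semilinear bijections given by `σ`
on the de Rham cohomology groups `T ⊗ ℂ`, `H^1(A) ⊗ ℂ` and on the Tate twist `ℚ(-1) ⊗ ℂ` in rational
bases, and `E l`, `V l`, `u l` those of the `l`-adic comparisons. -/
structure Conjugate {n r w : ℕ} (T T' : HS n) (c : Fin n → Fin r) (W W' : HW w) where
  bQ : BD c T'.Q
  bx : BD c T'.x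
  /-- de Rham cohomology of the surfaces -/
  D : Matrix (Fin n) (Fin n) ℂ
  bD : BD c D
  isoD : Dᵀ * mC T'.Q * D = mC T.Q
  /-- `l`-adic cohomology of the surfaces -/
  E : ∀ (l : ℕ) [Fact l.Prime], Matrix (Fin n) (Fin n) ℚ_[l]
  bE : ∀ (l : ℕ) [Fact l.Prime], BD c (E l)
  isoE : ∀ (l : ℕ) [Fact l.Prime], (E l)ᵀ * T'.Q.map (fun z : ℚ => (z : ℚ_[l])) * E l =
    T.Q.map (fun z : ℚ => (z : ℚ_[l]))
  /-- de Rham cohomology of the abelian variety -/
  F : Matrix (Fin w) (Fin w) ℂ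
  isoF : IsUnit F
  /-- the Tate twist `ℚ(-1)`, de Rham -/
  z : ℂ
  isoz : z ≠ 0
  /-- `l`-adic cohomology of the abelian variety -/
  V : ∀ (l : ℕ) [Fact l.Prime], Matrix (Fin w) (Fin w) ℚ_[l]
  isoV : ∀ (l : ℕ) [Fact l.Prime], IsUnit (V l)
  /-- the Tate twist `ℚ(-1)`, `l`-adic -/
  u : ∀ (l : ℕ) [Fact l.Prime], ℚ_[l]
  isou : ∀ (l : ℕ) [Fact l.Prime], u l ≠ 0
  /-- Deligne's theorem for the powers of the abelian variety: Hodge classes are absolute Hodge
  classes (for odd `k` there are no Hodge classes except zero; for even `k` the `k`-linear forms on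
  `H^1` are twisted by `ℚ(-k/2)`) -/
  deligne : ∀ (k : ℕ) (β : (Fin k → Fin w) → ℚ), W.IsHodge β →
    ∃ β' : (Fin k → Fin w) → ℚ, W'.IsHodge β' ∧
      (pull F (fun L => (β' L : ℂ)) = fun L => z ^ (k / 2) * (β L : ℂ)) ∧
      ∀ (l : ℕ) [Fact l.Prime], pull (V l) (fun L => (β' L : ℚ_[l])) =
        fun L => u l ^ (k / 2) * (β L : ℚ_[l])

variable {n r w s m l k : ℕ}

/-- The rational class `t'` on the conjugate variety has the de Rham component `σ(t_dR)` and the
`ℓ`-adic component `σ(t_ℓ)` for all primes `ℓ` (values on the images of the rational basis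
vectors). -/
def Conjugate.IsConj {T T' : HS n} {c : Fin n → Fin r} {W W' : HW w}
    (K : Conjugate T T' c W W') (t t' : (Fin m → Fin s ⊕ Fin n) → (Fin l → Fin w) → ℚ) : Prop :=
  (pullX (fromBlocks 1 0 0 K.D) K.F (fun J L => (t' J L : ℂ)) =
    fun J L => K.z ^ (l / 2) * (t J L : ℂ)) ∧
  ∀ (ℓ : ℕ) [Fact ℓ.Prime],
    pullX (fromBlocks 1 0 0 (K.E ℓ)) (K.V ℓ) (fun J L => (t' J L : ℚ_[ℓ])) =
      fun J L => K.u ℓ ^ (l / 2) * (t J L : ℚ_[ℓ])

section alg

variable {S R : Type} [Fintype S] [CommRing R]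

theorem pullX_eq (A : Matrix S S R) (V : Matrix (Fin w) (Fin w) R)
    (t : (Fin m → S) → (Fin l → Fin w) → R) (J : Fin m → S) (L : Fin l → Fin w) :
    pullX A V t J L = pull A (fun K => pull V (t K) L) J := by
  unfold pullX pull
  refine Finset.sum_congr rfl fun K _ => ?_
  rw [Finset.mul_sum]
  refine Finset.sum_congr rfl fun M _ => ?_
  ring

theorem pull_comm (A : Matrix S S R) (V : Matrix (Fin w) (Fin w) R)
    (t : (Fin m → S) → (Fin l → Fin w) → R) (J : Fin m → S) (L : Fin l → Fin w) :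
    pull A (fun K => pull V (t K) L) J = pull V (fun M => pull A (fun K => t K M) J) L := by
  unfold pull
  simp only [Finset.mul_sum]
  rw [Finset.sum_comm]
  refine Finset.sum_congr rfl fun M _ => Finset.sum_congr rfl fun K _ => ?_
  ring

theorem pullX_mul [DecidableEq S] (A B : Matrix S S R) (V V' : Matrix (Fin w) (Fin w) R)
    (t : (Fin m → S) → (Fin l → Fin w) → R) :
    pullX (A * B) (V * V') t = pullX B V' (pullX A V t) := by
  funext J L
  rw [pullX_eq, pullX_eq, W557.PG.pull_mul]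
  congr 1
  funext K
  have h1 : (fun K => pull (V * V') (t K) L) = fun K => pull V' (pull V (t K)) L := by
    funext K
    rw [W557.PG.pull_mul]
  rw [h1, pull_comm]
  congr 1
  funext M
  rw [pullX_eq]

theorem alt_pull (V : Matrix (Fin w) (Fin w) R) (β : (Fin l → Fin w) → R)
    (hβ : ∀ (π : Equiv.Perm (Fin l)) (L : Fin l → Fin w),
      β (L ∘ π) = ((Equiv.Perm.sign π : ℤ) : R) * β L) (π : Equiv.Perm (Fin l))
    (L : Fin l → Fin w) : pull V β (L ∘ π) = ((Equiv.Perm.sign π : ℤ) : R) * pull V β L := by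
  unfold pull
  rw [Finset.mul_sum]
  rw [← Equiv.sum_comp (Equiv.arrowCongr π.symm (Equiv.refl (Fin w)))]
  refine Finset.sum_congr rfl fun K _ => ?_
  have h6 : (Equiv.arrowCongr π.symm (Equiv.refl (Fin w))) K = K ∘ π := by
    funext i
    simp [Equiv.arrowCongr]
  have h7 : ∏ j, V ((K ∘ π) j) ((L ∘ π) j) = ∏ j, V (K j) (L j) :=
    Equiv.prod_comp π fun j => V (K j) (L j)
  rw [h6, h7, hβ π K]
  ring

end alg

/-- The comparison preserves the Kuenneth components. -/
theorem kuenneth_of_pullX {R : Type} [Field R] [CharZero R] (c : Fin n → Fin r)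
    (d : Fin s → Fin r) (cd : Fin s → ℕ) (a : Fin m → Fin r) (P P' : Matrix (Fin n) (Fin n) R)
    (hP' : BD c P') (h1 : P * P' = 1) (V V' : Matrix (Fin w) (Fin w) R) (h2 : V * V' = 1) (z : R)
    (t t' : (Fin m → Fin s ⊕ Fin n) → (Fin l → Fin w) → ℚ) (ht : InKuenneth c d cd a k t)
    (h : pullX (fromBlocks 1 0 0 P) V (fun J L => (t' J L : R)) = fun J L => z * (t J L : R)) :
    InKuenneth c d cd a k t' := by
  have h3 : (fun J L => (t' J L : R)) =
      pullX (fromBlocks 1 0 0 P') V' (fun J L => z * (t J L : R)) := by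
    rw [← h, ← pullX_mul, Matrix.fromBlocks_multiply, h2]
    simp only [Matrix.mul_zero, Matrix.zero_mul, Matrix.mul_one, add_zero, zero_add, h1,
      Matrix.fromBlocks_one, pullX_one]
  refine ⟨fun J L hJ => ?_, fun J π L => ?_⟩
  · have h4 : pullX (fromBlocks 1 0 0 P') V' (fun J L => z * (t J L : R)) J L ≠ 0 := by
      rw [← h3]
      change (t' J L : R) ≠ 0
      exact_mod_cast hJ
    unfold pullX at h4
    obtain ⟨K, _, hK⟩ := Finset.exists_ne_zero_of_sum_ne_zero h4
    obtain ⟨M, _, hM⟩ := Finset.exists_ne_zero_of_sum_ne_zero hK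
    have hK1 : t K M ≠ 0 := by
      intro h0
      apply hM
      simp [h0]
    have hK2 : ∀ j, fromBlocks (1 : Matrix (Fin s) (Fin s) R) 0 0 P' (K j) (J j) ≠ 0 := by
      intro j h0
      apply hM
      rw [Finset.prod_eq_zero (Finset.mem_univ j) h0, zero_mul, zero_mul]
    have hK3 : ∀ j, Sum.elim d c (K j) = Sum.elim d c (J j) ∧
        Sum.elim cd (fun _ => 1) (K j) = Sum.elim cd (fun _ => 1) (J j) := by
      intro j
      have := hK2 j
      rcases hk : K j with x | x <;> rcases hj : J j with y | y <;> rw [hk, hj] at this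
      · rw [Matrix.fromBlocks_apply₁₁, Matrix.one_apply] at this
        have hxy : x = y := by
          by_contra hxy
          rw [if_neg hxy] at this
          exact this rfl
        rw [hxy]
        exact ⟨rfl, rfl⟩
      · rw [Matrix.fromBlocks_apply₁₂] at this
        exact absurd rfl this
      · rw [Matrix.fromBlocks_apply₂₁] at this
        exact absurd rfl this
      · rw [Matrix.fromBlocks_apply₂₂] at this
        refine ⟨?_, rfl⟩
        by_contra hxy
        exact this (hP' x y hxy)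
    obtain ⟨h5, h6⟩ := ht.1 K M hK1
    refine ⟨fun j => by rw [← (hK3 j).1]; exact h5 j, ?_⟩
    rw [← h6]
    exact Finset.sum_congr rfl fun j _ => (hK3 j).2.symm
  · have h5 : ∀ L, ((t' J L : ℚ) : R) =
        pull (fromBlocks 1 0 0 P') (fun K => pull V' (fun M => z * (t K M : R)) L) J := by
      intro L
      have := congrFun (congrFun h3 J) L
      rw [pullX_eq] at this
      exact this
    have h6 : ∀ K, pull V' (fun M => z * (t K M : R)) (L ∘ π) =
        ((Equiv.Perm.sign π : ℤ) : R) * pull V' (fun M => z * (t K M : R)) L := by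
      intro K
      refine alt_pull V' _ (fun π L => ?_) π L
      have := ht.2 K π L
      rw [this]
      push_cast
      ring
    have h7 : ((t' J (L ∘ π) : ℚ) : R) = ((((Equiv.Perm.sign π : ℤ) : ℚ) * t' J L : ℚ) : R) := by
      rw [h5, Rat.cast_mul, h5]
      simp only [h6]
      unfold pull
      rw [Finset.mul_sum]
      refine Finset.sum_congr rfl fun K _ => ?_
      push_cast
      ring
    exact_mod_cast h7

/-- conjugates of products -/
theorem conj_tensor {R : Type} [Field R] [CharZero R] (P : Matrix (Fin n) (Fin n) R)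
    (V : Matrix (Fin w) (Fin w) R) (z : R) (α α' : (Fin m → Fin s ⊕ Fin n) → ℚ)
    (β β' : (Fin l → Fin w) → ℚ)
    (h1 : pull (fromBlocks 1 0 0 P) (fun J => (α' J : R)) = fun J => (α J : R))
    (h2 : pull V (fun L => (β' L : R)) = fun L => z * (β L : R)) :
    pullX (fromBlocks 1 0 0 P) V (fun J L => ((α' J * β' L : ℚ) : R)) =
      fun J L => z * ((α J * β L : ℚ) : R) := by
  funext J L
  have h5 : (fun (J : Fin m → Fin s ⊕ Fin n) (L : Fin l → Fin w) => (((α' J * β' L : ℚ)) : R)) =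
      fun J L => (α' J : R) * (β' L : R) := by
    funext J L
    push_cast
    ring
  rw [h5, pullX_tensor (fromBlocks 1 0 0 P) V (fun J => (α' J : R)) (fun L => (β' L : R)) J L,
    h1, h2]
  push_cast
  ring

theorem conj_add {R : Type} [Field R] [CharZero R] (P : Matrix (Fin n) (Fin n) R)
    (V : Matrix (Fin w) (Fin w) R) (z : R)
    (t1 t1' t2 t2' : (Fin m → Fin s ⊕ Fin n) → (Fin l → Fin w) → ℚ)
    (h1 : pullX (fromBlocks 1 0 0 P) V (fun J L => (t1' J L : R)) = fun J L => z * (t1 J L : R))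
    (h2 : pullX (fromBlocks 1 0 0 P) V (fun J L => (t2' J L : R)) = fun J L => z * (t2 J L : R)) :
    pullX (fromBlocks 1 0 0 P) V (fun J L => ((t1' J L + t2' J L : ℚ) : R)) =
      fun J L => z * ((t1 J L + t2 J L : ℚ) : R) := by
  funext J L
  have h5 : (fun (J : Fin m → Fin s ⊕ Fin n) (L : Fin l → Fin w) =>
      (((t1' J L + t2' J L : ℚ)) : R)) = fun J L => (t1' J L : R) + (t2' J L : R) := by
    funext J L
    push_cast
    ring
  rw [h5, pullX_add (fromBlocks 1 0 0 P) V (fun J L => (t1' J L : R))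
    (fun J L => (t2' J L : R)) J L, h1, h2]
  push_cast
  ring

theorem conj_smul {R : Type} [Field R] [CharZero R] (P : Matrix (Fin n) (Fin n) R)
    (V : Matrix (Fin w) (Fin w) R) (z : R) (x : ℚ)
    (t1 t1' : (Fin m → Fin s ⊕ Fin n) → (Fin l → Fin w) → ℚ)
    (h1 : pullX (fromBlocks 1 0 0 P) V (fun J L => (t1' J L : R)) = fun J L => z * (t1 J L : R)) :
    pullX (fromBlocks 1 0 0 P) V (fun J L => ((x * t1' J L : ℚ) : R)) =
      fun J L => z * ((x * t1 J L : ℚ) : R) := by
  funext J L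
  have h5 : (fun (J : Fin m → Fin s ⊕ Fin n) (L : Fin l → Fin w) =>
      (((x * t1' J L : ℚ)) : R)) = fun J L => (x : R) * (t1' J L : R) := by
    funext J L
    push_cast
    ring
  rw [h5, pullX_smul (fromBlocks 1 0 0 P) V (x : R) (fun J L => (t1' J L : R)) J L, h1]
  push_cast
  ring

/-- sums of products of classes which have conjugates -/
theorem conj_span {T T' : HS n} {c : Fin n → Fin r} {W W' : HW w} (K : Conjugate T T' c W W')
    (d : Fin s → Fin r) (cd : Fin s → ℕ) (a : Fin m → Fin r)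
    (U : Submodule ℚ ((Fin m → Fin s ⊕ Fin n) → ℚ))
    (hU : ∀ α ∈ U, ∃ α' : (Fin m → Fin s ⊕ Fin n) → ℚ, T'.IsHodgeS α' ∧
      (pull (fromBlocks 1 0 0 K.D) (fun J => (α' J : ℂ)) = fun J => (α J : ℂ)) ∧
      ∀ (ℓ : ℕ) [Fact ℓ.Prime],
        pull (fromBlocks 1 0 0 (K.E ℓ)) (fun J => (α' J : ℚ_[ℓ])) = fun J => (α J : ℚ_[ℓ]))
    (hbQ : BD c T.Q)
    (t : (Fin m → Fin s ⊕ Fin n) → (Fin l → Fin w) → ℚ)
    (ht : t ∈ Submodule.span ℚ {f : (Fin m → Fin s ⊕ Fin n) → (Fin l → Fin w) → ℚ |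
      ∃ α ∈ U, ∃ β ∈ W.hodge l, f = fun J L => α J * β L})
    (htd : InKuenneth c d cd a k t) :
    ∃ t' : (Fin m → Fin s ⊕ Fin n) → (Fin l → Fin w) → ℚ, IsHodgeX T' W' t' ∧
      InKuenneth c d cd a k t' ∧ K.IsConj t t' := by
  have key : ∃ t' : (Fin m → Fin s ⊕ Fin n) → (Fin l → Fin w) → ℚ, IsHodgeX T' W' t' ∧
      K.IsConj t t' := by
    have hcnv := W374.PG.cnv n r w s m l T' W' c d a K.bQ K.bx
    clear htd
    induction ht using Submodule.span_induction with
    | mem t h =>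
      obtain ⟨α, hα, β, hβ, rfl⟩ := h
      obtain ⟨α', a1, a2, a3⟩ := hU α hα
      obtain ⟨β', b1, b2, b3⟩ := K.deligne l β hβ.1
      refine ⟨fun J L => α' J * β' L, hcnv.2 α' β' a1 b1, ?_, fun ℓ hℓ => ?_⟩
      · exact conj_tensor K.D K.F _ α α' β β' a2 b2
      · exact conj_tensor (K.E ℓ) (K.V ℓ) _ α α' β β' (a3 ℓ) (b3 ℓ)
    | zero =>
      refine ⟨fun _ _ => 0, ?_, ?_, fun ℓ _ => ?_⟩
      · intro u v a b _ _ _
        simp
      · funext J L
        simp [pullX]
      · funext J L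
        simp [pullX]
    | add t1 t2 _ _ h1 h2 =>
      obtain ⟨t1', a1, a2, a3⟩ := h1
      obtain ⟨t2', b1, b2, b3⟩ := h2
      refine ⟨fun J L => t1' J L + t2' J L, ?_, ?_, fun ℓ hℓ => ?_⟩
      · intro u v a b h4 h5 h6
        have h7 := a1 u v a b h4 h5 h6
        have h8 := b1 u v a b h4 h5 h6
        simp only [Rat.cast_add, add_mul, Finset.sum_add_distrib]
        rw [h7, h8, add_zero]
      · exact conj_add K.D K.F _ t1 t1' t2 t2' a2 b2
      · exact conj_add (K.E ℓ) (K.V ℓ) _ t1 t1' t2 t2' (a3 ℓ) (b3 ℓ)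
    | smul x t1 _ h1 =>
      obtain ⟨t1', a1, a2, a3⟩ := h1
      refine ⟨fun J L => x * t1' J L, ?_, ?_, fun ℓ hℓ => ?_⟩
      · intro u v a b h4 h5 h6
        have h7 := a1 u v a b h4 h5 h6
        simp only [Rat.cast_mul, mul_assoc, ← Finset.mul_sum] at h7 ⊢
        rw [h7, mul_zero]
      · exact conj_smul K.D K.F _ x t1 t1' a2
      · exact conj_smul (K.E ℓ) (K.V ℓ) _ x t1 t1' (a3 ℓ)
  obtain ⟨t', h1, h2⟩ := key
  obtain ⟨P', hP', hPP⟩ := exists_inv (T := T) (T' := T') hbQ K.bQ K.D K.bD K.isoD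
  obtain ⟨F', hF'⟩ := K.isoF.exists_right_inv
  exact ⟨t', h1, kuenneth_of_pullX c d cd a K.D P' hP' hPP K.F F' hF' _ t t' htd h2.1, h2⟩

/-- **Absolute Hodge classes on products of surfaces and an abelian variety.** -/
theorem few (T T' : HS n) (W W' : HW w) (c : Fin n → Fin r) (p q : Fin r → ℕ)
    (hT : T.Big c p q) (hpl : l = 0 ∨ ∀ i, 2 ≤ p i) (K : Conjugate T T' c W W')
    (d : Fin s → Fin r) (cd : Fin s → ℕ) (a : Fin m → Fin r)
    (t : (Fin m → Fin s ⊕ Fin n) → (Fin l → Fin w) → ℚ) (ht : IsHodgeX T W t)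
    (htd : InKuenneth c d cd a k t)
    (htr : ∀ J L, t J L ≠ 0 → ∀ i, (univ.filter fun j => ∃ b, J j = Sum.inr b ∧ c b = i).card <
      2 * p i + q i) :
    ∃ t' : (Fin m → Fin s ⊕ Fin n) → (Fin l → Fin w) → ℚ, IsHodgeX T' W' t' ∧
      InKuenneth c d cd a k t' ∧ K.IsConj t t' := by
  have h1 := (hcA hT W hpl d a t (fun J L h => (htd.1 J L h).1) htr (fun J π L => by
    have := htd.2 J π L
    exact_mod_cast this)).1 ht
  have h2 : {f : (Fin m → Fin s ⊕ Fin n) → (Fin l → Fin w) → ℚ | ∃ α ∈ T.algP c d a,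
      ∃ β : (Fin l → Fin w) → ℚ, W.IsHodge β ∧ IsAlt β ∧ f = fun J L => α J * β L} =
      {f | ∃ α ∈ T.algP c d a, ∃ β ∈ W.hodge l, f = fun J L => α J * β L} := by
    ext f
    constructor
    · rintro ⟨α, hα, β, h3, h4, rfl⟩
      exact ⟨α, hα, β, ⟨h3, h4⟩, rfl⟩
    · rintro ⟨α, hα, β, ⟨h3, h4⟩, rfl⟩
      exact ⟨α, hα, β, h3, h4, rfl⟩
  unfold HS.algX at h1
  rw [h2] at h1
  refine conj_span K d cd a (T.algP c d a) (fun α hα => ?_) hT.bQ t h1 htd
  obtain ⟨α', h3, h4⟩ := algP_conj T T' c d a α hα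
  refine ⟨α', W374.PG.hodge_algP T' c d a K.bx α' h3, h4 ℂ K.D K.bD K.isoD, fun ℓ hℓ => ?_⟩
  exact h4 ℚ_[ℓ] (K.E ℓ) (K.bE ℓ) (K.isoE ℓ)

end

end Pool.Agent.W547.AHX
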