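import Pool.Agent.W544.PG.Final4
import Pool.Agent.W544.PG.Cmp
import Pool.Agent.W864.PG.SO2

/-!
# Absolute Hodge classes on products of surfaces and an abelian variety
-/

set_option autoImplicit false

open Matrix Finset Module

namespace Pool.Agent.W547.AHX

open Pool.Agent.W544.PG

noncomputable section

/-! ### Pull-back of forms in two kinds of variables -/

/-- The pull-back of a form with `m` variables in a space with basis `S` and `l` variables in a
space with basis `Fin w` under the linear maps with matrices `P` and `V`. -/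
def pullX {S : Type} [Fintype S] {m w l : ℕ} {R : Type} [CommRing R] (P : Matrix S S R)
    (V : Matrix (Fin w) (Fin w) R) (t : (Fin m → S) → (Fin l → Fin w) → R) :
    (Fin m → S) → (Fin l → Fin w) → R :=
  fun J L => ∑ K : Fin m → S, ∑ M : Fin l → Fin w, (∏ j, P (K j) (J j)) *
    (∏ i, V (M i) (L i)) * t K M

theorem pullX_add {S : Type} [Fintype S] {m w l : ℕ} {R : Type} [CommRing R] (P : Matrix S S R)
    (V : Matrix (Fin w) (Fin w) R) (t t' : (Fin m → S) → (Fin l → Fin w) → R) (J : Fin m → S)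
    (L : Fin l → Fin w) :
    pullX P V (fun J L => t J L + t' J L) J L = pullX P V t J L + pullX P V t' J L := by
  unfold pullX
  rw [← Finset.sum_add_distrib]
  refine Finset.sum_congr rfl fun K _ => ?_
  rw [← Finset.sum_add_distrib]
  refine Finset.sum_congr rfl fun M _ => ?_
  ring

theorem pullX_smul {S : Type} [Fintype S] {m w l : ℕ} {R : Type} [CommRing R] (P : Matrix S S R)
    (V : Matrix (Fin w) (Fin w) R) (z : R) (t : (Fin m → S) → (Fin l → Fin w) → R)
    (J : Fin m → S) (L : Fin l → Fin w) :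
    pullX P V (fun J L => z * t J L) J L = z * pullX P V t J L := by
  unfold pullX
  rw [Finset.mul_sum]
  refine Finset.sum_congr rfl fun K _ => ?_
  rw [Finset.mul_sum]
  refine Finset.sum_congr rfl fun M _ => ?_
  ring

theorem pullX_tensor {S : Type} [Fintype S] {m w l : ℕ} {R : Type} [CommRing R]
    (P : Matrix S S R) (V : Matrix (Fin w) (Fin w) R) (α : (Fin m → S) → R)
    (β : (Fin l → Fin w) → R) (J : Fin m → S) (L : Fin l → Fin w) :
    pullX P V (fun J L => α J * β L) J L = pull P α J * pull V β L := by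
  unfold pullX pull
  rw [Finset.sum_mul_sum]
  refine Finset.sum_congr rfl fun K _ => ?_
  refine Finset.sum_congr rfl fun M _ => ?_
  ring

/-! ### Two embeddings -/

/-- The comparison of two embeddings `ρ`, `ρ'` into the complex numbers of the field of
definition of surfaces `S_i` and of an abelian variety `A`: `T = ⊕ T_i`, `T'` are the
transcendental parts of the cohomology of the surfaces `ρ S_i`, `ρ' S_i` (`c` says to which
surface a basis vector belongs), `W`, `W'` the cohomology groups `H^1` of `ρ A` and `ρ' A`, and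
`E l`, `V l`, `u l` are the matrices (the number) of the comparison isomorphisms given by `l`-adic
cohomology for `H^2(S_i)(1)`, for `H^1(A)` and for the Tate twist `ℚ(-1)`. -/
structure TwoEmbeddings {n r w : ℕ} (T T' : HS n) (c : Fin n → Fin r) (W W' : HW w) where
  bQ : BD c T'.Q
  bx : BD c T'.x
  /-- the `l`-adic comparison for the surfaces -/
  E : ∀ (l : ℕ) [Fact l.Prime], Matrix (Fin n) (Fin n) ℚ_[l]
  bE : ∀ (l : ℕ) [Fact l.Prime], BD c (E l)
  isoE : ∀ (l : ℕ) [Fact l.Prime], (E l)ᵀ * T'.Q.map (fun z : ℚ => (z : ℚ_[l])) * E l =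
    T.Q.map (fun z : ℚ => (z : ℚ_[l]))
  /-- the `l`-adic comparison for the abelian variety -/
  V : ∀ (l : ℕ) [Fact l.Prime], Matrix (Fin w) (Fin w) ℚ_[l]
  isoV : ∀ (l : ℕ) [Fact l.Prime], IsUnit (V l)
  /-- the `l`-adic comparison for the Tate twist `ℚ(-1)` -/
  u : ∀ (l : ℕ) [Fact l.Prime], ℚ_[l]
  isoU : ∀ (l : ℕ) [Fact l.Prime], u l ≠ 0
  /-- Deligne's theorem for the powers of the abelian variety (for odd `k` there are no Hodge
  classes except zero; for even `k` the `k`-linear forms on `H^1` are twisted by `ℚ(-k/2)`) -/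
  deligne : ∀ (l : ℕ) [Fact l.Prime] (k : ℕ) (β : (Fin k → Fin w) → ℚ), W.IsHodge β →
    ∃ β' : (Fin k → Fin w) → ℚ, W'.IsHodge β' ∧
      pull (V l) (fun L => (β' L : ℚ_[l])) = fun L => u l ^ (k / 2) * (β L : ℚ_[l])

variable {n r w s m l k : ℕ}

/-- The class lies in the Kuenneth component
`H^(2k)(S_(a 1) × ... × S_(a m)) ⊗ H^l(A)`: it is supported on the basis vectors of the surfaces
`S_(a j)` of total degree `2 k`, and alternating in the variables in `H^1(A)`. -/
def InKuenneth {R : Type} [Ring R] (c : Fin n → Fin r) (d : Fin s → Fin r) (cd : Fin s → ℕ)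
    (a : Fin m → Fin r) (k : ℕ) (t : (Fin m → Fin s ⊕ Fin n) → (Fin l → Fin w) → R) : Prop :=
  (∀ J L, t J L ≠ 0 → (∀ j, Sum.elim d c (J j) = a j) ∧
    ∑ j, Sum.elim cd (fun _ => 1) (J j) = k) ∧
  ∀ J (π : Equiv.Perm (Fin l)) (L : Fin l → Fin w),
    t J (L ∘ π) = ((Equiv.Perm.sign π : ℤ) : R) * t J L

/-- The rational forms of a given Kuenneth component which are Hodge classes on the surfaces. -/
def hodgeS (T : HS n) (c : Fin n → Fin r) (d : Fin s → Fin r) (cd : Fin s → ℕ)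
    (a : Fin m → Fin r) (k : ℕ) : Submodule ℚ ((Fin m → Fin s ⊕ Fin n) → ℚ) where
  carrier := {α | T.IsHodgeS α ∧ InDeg c d cd a k α}
  zero_mem' := by
    refine ⟨fun v b _ _ => ?_, fun J hJ => absurd rfl hJ⟩
    simp [evG]
  add_mem' := by
    rintro β γ ⟨h1, h2⟩ ⟨h3, h4⟩
    refine ⟨fun v b hv hb => ?_, fun J hJ => ?_⟩
    · have h5 := h1 v b hv hb
      have h6 := h3 v b hv hb
      unfold evG at h5 h6 ⊢
      simp only [Pi.add_apply, Rat.cast_add, add_mul, Finset.sum_add_distrib]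
      rw [h5, h6, add_zero]
    · by_cases hβ : β J = 0
      · refine h4 J fun hγ => hJ ?_
        rw [Pi.add_apply, hβ, hγ, add_zero]
      · exact h2 J hβ
  smul_mem' := by
    rintro z β ⟨h1, h2⟩
    refine ⟨fun v b hv hb => ?_, fun J hJ => ?_⟩
    · have h5 := h1 v b hv hb
      unfold evG at h5 ⊢
      simp only [Pi.smul_apply, smul_eq_mul, Rat.cast_mul, mul_assoc, ← Finset.mul_sum]
      rw [h5, mul_zero]
    · refine h2 J fun hβ => hJ ?_
      rw [Pi.smul_apply, hβ, smul_zero]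

theorem alt_of_pull {R : Type} [Field R] [CharZero R] (V : Matrix (Fin w) (Fin w) R)
    (hV : IsUnit V) (z : R) (β β' : (Fin l → Fin w) → ℚ) (hβ : IsAlt β)
    (h : pull V (fun L => (β' L : R)) = fun L => z * (β L : R)) : IsAlt β' := by
  obtain ⟨V', h1⟩ := hV.exists_right_inv
  have h2 : (fun L => (β' L : R)) = pull V' (fun L => z * (β L : R)) := by
    rw [← h, ← W557.PG.pull_mul, h1, W557.PG.pull_one]
  intro π L
  have h3 : ((β' (L ∘ π) : ℚ) : R) = ((((Equiv.Perm.sign π : ℤ) : ℚ) * β' L : ℚ) : R) := by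
    have h4 := congrFun h2 (L ∘ π)
    have h5 := congrFun h2 L
    rw [h4, Rat.cast_mul, h5]
    unfold pull
    rw [Finset.mul_sum]
    rw [← Equiv.sum_comp (Equiv.arrowCongr π.symm (Equiv.refl (Fin w)))]
    refine Finset.sum_congr rfl fun K _ => ?_
    have h6 : (Equiv.arrowCongr π.symm (Equiv.refl (Fin w))) K = K ∘ π := by
      funext i
      simp [Equiv.arrowCongr]
    have h7 : ∏ j, V' ((K ∘ π) j) ((L ∘ π) j) = ∏ j, V' (K j) (L j) :=
      Equiv.prod_comp π fun j => V' (K j) (L j)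
    have h8 : ((β (K ∘ π) : ℚ) : R) = ((Equiv.Perm.sign π : ℤ) : R) * ((β K : ℚ) : R) := by
      rw [hβ π K]
      push_cast
      rfl
    rw [h6]
    change (∏ j, V' ((K ∘ π) j) ((L ∘ π) j)) * (z * ((β (K ∘ π) : ℚ) : R)) = _
    rw [h7, h8]
    push_cast
    ring
  exact_mod_cast h3

/-- **Deligne's conjecture for products of surfaces and an abelian variety**, rational form. -/
theorem main (T T' : HS n) (W W' : HW w) (c : Fin n → Fin r) (p q : Fin r → ℕ)
    (hT : T.Big c p q) (hpl : l = 0 ∨ ∀ i, 2 ≤ p i) (K : TwoEmbeddings T T' c W W')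
    (d : Fin s → Fin r) (cd : Fin s → ℕ) (a : Fin m → Fin r) (ℓ : ℕ) [Fact ℓ.Prime]
    (t : (Fin m → Fin s ⊕ Fin n) → (Fin l → Fin w) → ℚ) (ht : IsHodgeX T W t)
    (htd : InKuenneth c d cd a k t) :
    ∃ t' : (Fin m → Fin s ⊕ Fin n) → (Fin l → Fin w) → ℚ, IsHodgeX T' W' t' ∧
      InKuenneth c d cd a k t' ∧
      pullX (fromBlocks 1 0 0 (K.E ℓ)) (K.V ℓ) (fun J L => (t' J L : ℚ_[ℓ])) =
        fun J L => K.u ℓ ^ (l / 2) * (t J L : ℚ_[ℓ]) := by
  have hsep := W143.PG.sep n w s m l T W t ht (by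
    rcases hpl with h | h
    · exact Or.inl h
    · exact Or.inr (keyF hT h W s))
  have h1 := W748.PG5.ten _ _ (hodgeS T c d cd a k) (W.hodge l) t
    (fun L => ⟨hsep.1 L, fun J hJ => htd.1 J L hJ⟩)
    (fun J => ⟨hsep.2 J, fun π L => by
      have := htd.2 J π L
      exact_mod_cast this⟩)
  obtain ⟨e, he⟩ := exists_e (T := T) (T' := T') hT.bQ K.bQ K.E K.bE K.isoE
  obtain ⟨f⟩ := W435.PG.emb ℓ
  obtain ⟨P', hP', hPP⟩ := exists_inv (T := T) (T' := T') hT.bQ K.bQ (K.E ℓ) (K.bE ℓ) (K.isoE ℓ)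
  have key : ∀ α ∈ hodgeS T c d cd a k, ∃ α' : (Fin m → Fin s ⊕ Fin n) → ℚ, T'.IsHodgeS α' ∧
      InDeg c d cd a k α' ∧
      pull (fromBlocks 1 0 0 (K.E ℓ)) (fun J => (α' J : ℚ_[ℓ])) = fun J => (α J : ℚ_[ℓ]) := by
    intro α hα
    obtain ⟨α', h2, h3⟩ := W409.PG.aht n s m T T' ℚ_[ℓ] (K.E ℓ) (fun k t ht =>
      ah_R W864.PG.so2 (fun Z hZ hZc => mainPF hT Z hZ hZc) hT.bQ K.bQ K.bx e he f (K.E ℓ)
        (K.bE ℓ) (K.isoE ℓ) k t ht) α hα.1
    exact ⟨α', h2, inDeg_of_pull d cd a k (K.E ℓ) P' hP' hPP α α' hα.2 h3, h3⟩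
  have hcnv := W374.PG.cnv n r w s m l T' W' c d a K.bQ K.bx
  clear hsep ht htd
  induction h1 using Submodule.span_induction with
  | mem t h =>
    obtain ⟨α, hα, β, hβ, rfl⟩ := h
    obtain ⟨α', a1, a2, a3⟩ := key α hα
    obtain ⟨β', b1, b2⟩ := K.deligne ℓ l β hβ.1
    have b3 : IsAlt β' := alt_of_pull (K.V ℓ) (K.isoV ℓ) _ β β' hβ.2 b2
    refine ⟨fun J L => α' J * β' L, hcnv.2 α' β' a1 b1, ⟨fun J L hJL => ?_, fun J π L => ?_⟩, ?_⟩
    · refine a2 J fun h0 => hJL ?_
      change α' J * β' L = 0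
      rw [h0, zero_mul]
    · change α' J * β' (L ∘ π) = _
      rw [b3 π L]
      push_cast
      ring
    · funext J L
      have h5 : (fun (J : Fin m → Fin s ⊕ Fin n) (L : Fin l → Fin w) =>
          (((α' J * β' L : ℚ)) : ℚ_[ℓ])) = fun J L => (α' J : ℚ_[ℓ]) * (β' L : ℚ_[ℓ]) := by
        funext J L
        push_cast
        ring
      rw [h5, pullX_tensor (fromBlocks 1 0 0 (K.E ℓ)) (K.V ℓ) (fun J => (α' J : ℚ_[ℓ]))
        (fun L => (β' L : ℚ_[ℓ])) J L, a3, b2]
      push_cast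
      ring
  | zero =>
    refine ⟨fun _ _ => 0, ?_, ⟨fun J L h => absurd rfl h, fun J π L => by simp⟩, ?_⟩
    · intro u v a b _ _ _
      simp
    · funext J L
      simp [pullX]
  | add t1 t2 _ _ h1 h2 =>
    obtain ⟨t1', a1, a2, a3⟩ := h1
    obtain ⟨t2', b1, b2, b3⟩ := h2
    refine ⟨fun J L => t1' J L + t2' J L, ?_, ⟨fun J L hJL => ?_, fun J π L => ?_⟩, ?_⟩
    · intro u v a b h4 h5 h6
      have h7 := a1 u v a b h4 h5 h6
      have h8 := b1 u v a b h4 h5 h6
      simp only [Rat.cast_add, add_mul, Finset.sum_add_distrib]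
      rw [h7, h8, add_zero]
    · by_cases h0 : t1' J L = 0
      · refine b2.1 J L fun h9 => hJL ?_
        change t1' J L + t2' J L = 0
        rw [h0, h9, add_zero]
      · exact a2.1 J L h0
    · change t1' J (L ∘ π) + t2' J (L ∘ π) = _
      rw [a2.2 J π L, b2.2 J π L]
      ring
    · funext J L
      have h5 : (fun (J : Fin m → Fin s ⊕ Fin n) (L : Fin l → Fin w) =>
          (((t1' J L + t2' J L : ℚ)) : ℚ_[ℓ])) = fun J L => (t1' J L : ℚ_[ℓ]) +
            (t2' J L : ℚ_[ℓ]) := by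
        funext J L
        push_cast
        ring
      rw [h5, pullX_add (fromBlocks 1 0 0 (K.E ℓ)) (K.V ℓ) (fun J L => (t1' J L : ℚ_[ℓ]))
        (fun J L => (t2' J L : ℚ_[ℓ])) J L, a3, b3]
      rw [Pi.add_apply, Pi.add_apply]
      push_cast
      ring
  | smul z t1 _ h1 =>
    obtain ⟨t1', a1, a2, a3⟩ := h1
    refine ⟨fun J L => z * t1' J L, ?_, ⟨fun J L hJL => ?_, fun J π L => ?_⟩, ?_⟩
    · intro u v a b h4 h5 h6
      have h7 := a1 u v a b h4 h5 h6
      simp only [Rat.cast_mul, mul_assoc, ← Finset.mul_sum] at h7 ⊢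
      rw [h7, mul_zero]
    · refine a2.1 J L fun h0 => hJL ?_
      change z * t1' J L = 0
      rw [h0, mul_zero]
    · change z * t1' J (L ∘ π) = _
      rw [a2.2 J π L]
      ring
    · funext J L
      have h5 : (fun (J : Fin m → Fin s ⊕ Fin n) (L : Fin l → Fin w) =>
          (((z * t1' J L : ℚ)) : ℚ_[ℓ])) = fun J L => (z : ℚ_[ℓ]) * (t1' J L : ℚ_[ℓ]) := by
        funext J L
        push_cast
        ring
      rw [h5, pullX_smul (fromBlocks 1 0 0 (K.E ℓ)) (K.V ℓ) (z : ℚ_[ℓ])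
        (fun J L => (t1' J L : ℚ_[ℓ])) J L, a3]
      rw [Pi.smul_apply, Pi.smul_apply, smul_eq_mul]
      push_cast
      ring

/-- A class with `ℓ`-adic coefficients (in the coordinates of the embedding `ρ`) becomes Hodge under
the embedding with the Hodge structures `T`, `W`, the comparison matrices `P`, `V` and the
comparison `u` for the Tate twist `ℚ(-1)`. -/
def BecomesHodge (T : HS n) (W : HW w) (ℓ : ℕ) [Fact ℓ.Prime]
    (P : Matrix (Fin n) (Fin n) ℚ_[ℓ]) (V : Matrix (Fin w) (Fin w) ℚ_[ℓ]) (u : ℚ_[ℓ])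
    (γ : (Fin m → Fin s ⊕ Fin n) → (Fin l → Fin w) → ℚ_[ℓ]) : Prop :=
  ∃ t : (Fin m → Fin s ⊕ Fin n) → (Fin l → Fin w) → ℚ, IsHodgeX T W t ∧
    pullX (fromBlocks 1 0 0 P) V (fun J L => (t J L : ℚ_[ℓ])) =
      fun J L => u ^ (l / 2) * γ J L

theorem pullX_one {S : Type} [Fintype S] [DecidableEq S] {m w l : ℕ} {R : Type} [CommRing R]
    (t : (Fin m → S) → (Fin l → Fin w) → R) : pullX (1 : Matrix S S R) 1 t = t := by
  funext J L
  unfold pullX
  rw [Finset.sum_eq_single J, Finset.sum_eq_single L]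
  · simp
  · intro M _ hM
    obtain ⟨i, hi⟩ := Function.ne_iff.1 hM
    rw [Finset.prod_eq_zero (s := Finset.univ) (f := fun i => (1 : Matrix (Fin w) (Fin w) R)
      (M i) (L i)) (Finset.mem_univ i) (by rw [Matrix.one_apply_ne hi])]
    ring
  · intro h
    exact absurd (Finset.mem_univ _) h
  · intro K _ hK
    obtain ⟨i, hi⟩ := Function.ne_iff.1 hK
    refine Finset.sum_eq_zero fun M _ => ?_
    rw [Finset.prod_eq_zero (s := Finset.univ) (f := fun i => (1 : Matrix S S R)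
      (K i) (J i)) (Finset.mem_univ i) (by rw [Matrix.one_apply_ne hi])]
    ring
  · intro h
    exact absurd (Finset.mem_univ _) h

/-- **Deligne's conjecture for products of surfaces and an abelian variety.** -/
theorem main' (T T' : HS n) (W W' : HW w) (c : Fin n → Fin r) (p q : Fin r → ℕ)
    (hT : T.Big c p q) (hpl : l = 0 ∨ ∀ i, 2 ≤ p i) (K : TwoEmbeddings T T' c W W')
    (d : Fin s → Fin r) (cd : Fin s → ℕ) (a : Fin m → Fin r) (ℓ : ℕ) [Fact ℓ.Prime]
    (γ : (Fin m → Fin s ⊕ Fin n) → (Fin l → Fin w) → ℚ_[ℓ]) (hγ : InKuenneth c d cd a k γ)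
    (h : BecomesHodge T W ℓ 1 1 1 γ) : BecomesHodge T' W' ℓ (K.E ℓ) (K.V ℓ) (K.u ℓ) γ := by
  obtain ⟨t, h1, h2'⟩ := h
  have h2 : (fun J L => (t J L : ℚ_[ℓ])) = γ := by
    rw [Matrix.fromBlocks_one, pullX_one] at h2'
    rw [h2']
    funext J L
    rw [one_pow, one_mul]
  have h3 : InKuenneth c d cd a k t := by
    refine ⟨fun J L hJL => hγ.1 J L ?_, fun J π L => ?_⟩
    · rw [← h2]
      change (t J L : ℚ_[ℓ]) ≠ 0
      exact_mod_cast hJL
    · have h4 := hγ.2 J π L
      rw [← h2] at h4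
      have h5 : ((t J (L ∘ π) : ℚ) : ℚ_[ℓ]) =
          ((((Equiv.Perm.sign π : ℤ) : ℚ) * t J L : ℚ) : ℚ_[ℓ]) := by
        push_cast
        exact h4
      exact_mod_cast h5
  obtain ⟨t', h4, _, h5⟩ := main T T' W W' c p q hT hpl K d cd a ℓ t h1 h3
  exact ⟨t', h4, by rw [h5, ← h2]⟩

end

end Pool.Agent.W547.AHX
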